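import Pool.Agent.H88.WR.Targets

/-!
Row OPB of the board wmr_modules: a noncompact operator is not small on a sequence of blocks.
-/

set_option autoImplicit false

open Filter Topology Set

namespace Pool.Agent.H78.WR

open Pool.Agent.H85.WMP Pool.Agent.H88.WR

theorem opb_head (𝕜 : Type) [RCLike 𝕜] (M : Set (Finset ℕ)) (N : (ℕ →₀ 𝕜) → ℝ) (hN : TN 𝕜 M N)
    (S : Spc 𝕜 N) (b : S.D) (p : ℕ) (x : ℕ →₀ 𝕜) :
    ‖b (S.e (x.filter (· < p)))‖ ≤
      (∑ i ∈ Finset.range p, ‖b (S.e (Finsupp.single i 1))‖) * N x := by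
  have h1 : x.filter (· < p) = ∑ i ∈ Finset.range p, (x i) • Finsupp.single i (1 : 𝕜) := by
    ext k
    rw [Finsupp.finsetSum_apply, Finsupp.filter_apply]
    by_cases hk : k < p
    · rw [if_pos hk, Finset.sum_eq_single_of_mem k (Finset.mem_range.2 hk)]
      · simp
      · intro i _ hik
        simp [hik]
    · rw [if_neg hk]
      symm
      apply Finset.sum_eq_zero
      intro i hi
      have hik : i ≠ k := by
        have := Finset.mem_range.1 hi
        omega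
      simp [hik]
  rw [h1, map_sum, map_sum, Finset.sum_mul]
  refine (norm_sum_le _ _).trans (Finset.sum_le_sum ?_)
  intro i _
  rw [map_smul, map_smul, smul_eq_mul, norm_mul, mul_comm]
  exact mul_le_mul_of_nonneg_left (hN.coord x i) (norm_nonneg _)

theorem opb_tail (𝕜 : Type) [RCLike 𝕜] (M : Set (Finset ℕ)) (N : (ℕ →₀ 𝕜) → ℝ) (hN : TN 𝕜 M N)
    (S : Spc 𝕜 N) (b : S.D) (δ : ℝ) (hδ : 0 ≤ δ) (n q : ℕ) (hnq : n ≤ q)
    (h : ∀ x : ℕ →₀ 𝕜, ‖b (S.e (x.filter (n ≤ ·)))‖ ≤ δ * N x) (x : ℕ →₀ 𝕜) :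
    ‖b (S.e (x.filter (q ≤ ·)))‖ ≤ δ * N x := by
  have h1 : (x.filter (q ≤ ·)).filter (n ≤ ·) = x.filter (q ≤ ·) := by
    ext k
    simp only [Finsupp.filter_apply]
    split_ifs <;> first | rfl | omega
  have h2 := h (x.filter (q ≤ ·))
  rw [h1] at h2
  exact h2.trans (mul_le_mul_of_nonneg_left (hN.filter _ x) hδ)

theorem opb_split (𝕜 : Type) [RCLike 𝕜] (x : ℕ →₀ 𝕜) (p q : ℕ) (hpq : p < q) :
    x = x.filter (· < p) + x.filter (fun i => p ≤ i ∧ i < q) + x.filter (q ≤ ·) := by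
  ext k
  rw [Finsupp.add_apply, Finsupp.add_apply]
  simp only [Finsupp.filter_apply]
  split_ifs <;> first | (exfalso; omega) | simp

theorem pf_OPB (𝕜 : Type) [RCLike 𝕜] (hRFX : T_RFX 𝕜) (hNCP : T_NCP 𝕜) (hTAI : T_TAI 𝕜)
    (hPRJ : T_PRJ 𝕜) : T_OPB 𝕜 := by
  intro M N hM hN S F _ _ _ T hT
  obtain ⟨c, C, δ, hδ, hcC, hwn, hcT⟩ := hNCP S.D F (hRFX M N hM hN S) T hT
  have hC : 0 ≤ C := (norm_nonneg _).trans (hcC 0)
  set τ : ℝ := δ / (4 * (‖T‖ + 1)) with hτ
  have hT0 : 0 ≤ ‖T‖ := T.opNorm_nonneg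
  have hτ0 : 0 < τ := by positivity
  -- the choice
  have hch : ∀ p : ℕ, ∃ n q : ℕ, p < q ∧
      (∀ x : ℕ →₀ 𝕜, ‖c n (S.e (x.filter (· < p)))‖ ≤ τ * N x) ∧
      (∀ x : ℕ →₀ 𝕜, ‖c n (S.e (x.filter (q ≤ ·)))‖ ≤ τ * N x) := by
    intro p
    have hlim : Tendsto (fun n => ∑ i ∈ Finset.range p, ‖c n (S.e (Finsupp.single i 1))‖) atTop
        (𝓝 0) := by
      have h1 : ∀ i ∈ Finset.range p,
          Tendsto (fun n => ‖c n (S.e (Finsupp.single i (1 : 𝕜)))‖) atTop (𝓝 0) := by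
        intro i _
        have h2 := hwn (NormedSpace.inclusionInDoubleDual 𝕜 S.X (S.e (Finsupp.single i (1 : 𝕜))))
        have h3 := h2.norm
        rw [norm_zero] at h3
        exact h3
      have h4 := tendsto_finsetSum (Finset.range p) h1
      rw [Finset.sum_const_zero] at h4
      exact h4
    have hev := hlim.eventually_le_const hτ0
    obtain ⟨n, hn⟩ := hev.exists
    obtain ⟨q0, hq0⟩ := hTAI M N hM hN S (c n) τ hτ0
    refine ⟨n, max q0 (p + 1), by omega, ?_, ?_⟩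
    · intro x
      have hNx : 0 ≤ N x := by
        rw [← S.norm_e]
        exact norm_nonneg _
      exact (opb_head 𝕜 M N hN S (c n) p x).trans (mul_le_mul_of_nonneg_right hn hNx)
    · exact opb_tail 𝕜 M N hN S (c n) τ hτ0.le q0 _ (le_max_left _ _) hq0
  choose nn Q hQ hhead htail using hch
  set m : ℕ → ℕ := fun j => Q^[j] 0 with hm
  have hms : ∀ j, m (j + 1) = Q (m j) := fun j => Function.iterate_succ_apply' Q j 0
  have hmono : StrictMono m := strictMono_nat_of_lt_succ fun j => by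
    rw [hms j]
    exact hQ _
  have hb : ∀ j, ∃ b' : S.D, ‖b'‖ ≤ ‖c (nn (m j))‖ ∧ ∀ x : ℕ →₀ 𝕜,
      b' (S.e x) = c (nn (m j)) (S.e (x.filter (fun i => m j ≤ i ∧ i < m (j + 1)))) :=
    fun j => hPRJ M N hN S (c (nn (m j))) (fun i => m j ≤ i ∧ i < m (j + 1))
  choose b hb1 hb2 using hb
  refine ⟨m, b, C, δ / 2, hmono, by positivity, hC, ?_, fun j => (hb1 j).trans (hcC _), ?_⟩
  · intro j x
    rw [hb2 j x, hb2 j]
    congr 2
    ext k
    simp only [Finsupp.filter_apply]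
    split_ifs <;> rfl
  · intro j
    have hdist : ‖c (nn (m j)) - b j‖ ≤ 2 * τ := by
      apply ContinuousLinearMap.opNorm_le_bound _ (by positivity)
      intro z
      obtain ⟨x, rfl⟩ := S.e.surjective z
      rw [S.norm_e]
      have h1 : (c (nn (m j)) - b j) (S.e x) =
          c (nn (m j)) (S.e (x.filter (· < m j))) +
          c (nn (m j)) (S.e (x.filter (m (j + 1) ≤ ·))) := by
        have h2 := opb_split 𝕜 x (m j) (m (j + 1)) (hmono (Nat.lt_succ_self j))
        have h3 : c (nn (m j)) (S.e x) = c (nn (m j)) (S.e (x.filter (· < m j))) +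
            c (nn (m j)) (S.e (x.filter (fun i => m j ≤ i ∧ i < m (j + 1)))) +
            c (nn (m j)) (S.e (x.filter (m (j + 1) ≤ ·))) := by
          rw [← map_add, ← map_add, ← map_add, ← map_add, ← h2]
        have h4 : (c (nn (m j)) - b j) (S.e x) = c (nn (m j)) (S.e x) - b j (S.e x) := rfl
        rw [h4, h3, hb2 j x]
        ring
      rw [h1]
      refine (norm_add_le _ _).trans ?_
      have h5 := hhead (m j) x
      have h6 := htail (m j) x
      rw [← hms j] at h6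
      linarith
    have h7 : T (c (nn (m j))) = T (b j) + T (c (nn (m j)) - b j) := by
      rw [map_sub]
      abel
    have h8 : ‖T (c (nn (m j)) - b j)‖ ≤ ‖T‖ * (2 * τ) :=
      (T.le_opNorm _).trans (mul_le_mul_of_nonneg_left hdist hT0)
    have h9 : ‖T‖ * (2 * τ) ≤ δ / 2 := by
      rw [hτ]
      have : ‖T‖ * (2 * (δ / (4 * (‖T‖ + 1)))) = (δ / 2) * (‖T‖ / (‖T‖ + 1)) := by
        field_simp
        ring
      rw [this]
      have h10 : ‖T‖ / (‖T‖ + 1) ≤ 1 := by
        rw [div_le_one (by positivity)]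
        linarith
      nlinarith
    have h11 := hcT (nn (m j))
    rw [h7] at h11
    have h12 := norm_add_le (T (b j)) (T (c (nn (m j)) - b j))
    linarith

end Pool.Agent.H78.WR
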